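import Pool.Agent.Helper95.RK.GoalsB
import Pool.Agent.Helper95.RK.Basics
import Pool.Agent.Helper70.Lin.LevIbp

/-! # BZERO: the affine structure of the leaves is holomorphic -/

open Complex Metric Set Filter Topology MeasureTheory
open scoped ContDiff ComplexConjugate ComplexOrder Manifold Matrix

namespace Pool.Agent.Helper11.RK

open Pool.Agent.Helper95.Lin Pool.Agent.Helper16.Abund Pool.Agent.Helper92.Orb Pool.Agent.Helper10.SP
open Pool.Agent.Helper95.RK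

universe u v

section local_

variable {b k : ℕ}

theorem flatG_mono {W W' : Set (Cn (b + k))} {g : Cn (b + k) → Matrix (Fin k) (Fin k) ℂ}
    {Φ : Cn (b + k) → ℝ} (h : FlatG W g Φ) (hs : W' ⊆ W) : FlatG W' g Φ :=
  ⟨fun i j => (h.smooth i j).mono hs, fun x hx => h.posDef x (hs hx),
    fun x hx => h.kah x (hs hx), fun x hx => h.flat x (hs hx), fun x hx => h.vol x (hs hx)⟩

theorem adq_mono {W W' : Set (Cn (b + k))}
    {Q : Cn (b + k) → Matrix (Fin (b + k)) (Fin (b + k)) ℂ} {Φ : Cn (b + k) → ℝ}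
    (h : AdQ W Q Φ) (hW' : IsOpen W') (hs : W' ⊆ W) : AdQ W' Q Φ :=
  ⟨hW', fun i j => (h.smQ i j).mono hs, fun x hx => h.posQ x (hs hx), h.smP.mono hs,
    fun x hx => h.nonneg x (hs hx), fun x hx => h.ker x (hs hx), flatG_mono h.flat hs⟩

theorem cd_smooth {n : ℕ} {D : Set (Cn n)} (hD : IsOpen D) {f : Cn n → ℂ}
    (hf : ContDiffOn ℝ ∞ f D) (l : Fin n) : ContDiffOn ℝ ∞ (cd l f) D := by
  have h1 : ∀ e : Cn n, ContDiffOn ℝ ∞ (fun x => fderiv ℝ f x e) D := fun e =>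
    (hf.fderiv_of_isOpen (m := ∞) hD (by simp)).clm_apply contDiffOn_const
  exact (h1 _).sub (contDiffOn_const.mul (h1 _))

theorem exists_arrow {n : ℕ} {T : Set (Cn n)} {G : Type u} [Group G]
    {R : G → Cn n → Cn n → Prop} {κ : Cn n → ℝ} (hκ : IsPUE T R κ) {x : Cn n} (hx : x ∈ T) :
    ∃ γ y, R γ x y ∧ κ y ≠ 0 := by
  by_contra hcon
  push Not at hcon
  have h1 := hκ.sum x hx
  have h2 : AS R x (fun _ y => κ y) = 0 := by
    unfold AS
    have h3 : ∀ p : G × Cn n, ∑ᶠ (_ : R p.1 x p.2), κ p.2 = 0 := by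
      intro p
      by_cases hp : R p.1 x p.2
      · simp [hp, hcon _ _ hp]
      · simp [hp]
    exact finsum_eq_zero_of_forall_eq_zero h3
  rw [h2] at h1
  exact zero_ne_one h1

/-- The real part of a vanishing integral. -/
theorem re_integral {n : ℕ} {T : Set (Cn n)} (hT : IsOpen T) {κ : Cn n → ℝ} (hκ : TestF T κ)
    {D : Cn n → ℂ} (hD : ContDiffOn ℝ ∞ D T) (h0 : ∫ x in T, (κ x : ℂ) * D x = 0) :
    IntegrableOn (fun x => κ x * (D x).re) T ∧ ∫ x in T, κ x * (D x).re = 0 := by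
  have hcont : ContinuousOn (fun x => (κ x : ℂ) * D x) T :=
    (Complex.continuous_ofReal.comp_continuousOn hκ.1.continuous.continuousOn).mul
      hD.continuousOn
  have hi : IntegrableOn (fun x => (κ x : ℂ) * D x) T := by
    have h1 := (hcont.mono hκ.2.2).integrableOn_compact
      (μ := (volume : Measure (Cn n))) hκ.2.1
    refine h1.of_forall_sdiff_eq_zero hT.measurableSet fun x hx => ?_
    rw [image_eq_zero_of_notMem_tsupport hx.2]
    simp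
  have hre : (fun x => κ x * (D x).re) = fun x => Complex.reCLM ((κ x : ℂ) * D x) := by
    funext x
    simp
  constructor
  · rw [hre]
    exact Complex.reCLM.integrable_comp hi
  · have h2 := Complex.reCLM.integral_comp_comm hi
    rw [h0] at h2
    rw [hre, h2]
    simp

/-- A nonnegative function with vanishing integral vanishes. -/
theorem vanish {n : ℕ} {T : Set (Cn n)} (hT : IsOpen T) {κ : Cn n → ℝ} (hκ : TestF T κ)
    (hnn : ∀ x, 0 ≤ κ x) {g : Cn n → ℝ} (hg : ContDiffOn ℝ ∞ g T) (hg0 : ∀ x ∈ T, 0 ≤ g x)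
    (hint : ∫ x in T, κ x * g x = 0) : ∀ x ∈ T, κ x ≠ 0 → g x = 0 := by
  have hGt := Pool.Agent.Helper70.Lin.testF_mul hT hκ hg
  intro x hx hκx
  by_contra hne
  have hGnn : ∀ y, 0 ≤ κ y * g y := by
    intro y
    by_cases hy : y ∈ T
    · exact mul_nonneg (hnn y) (hg0 y hy)
    · rw [image_eq_zero_of_notMem_tsupport fun h => hy (hκ.2.2 h), zero_mul]
  have hne' : κ x * g x ≠ 0 := mul_ne_zero hκx hne
  have h3 := hGt.1.continuous.integral_pos_of_hasCompactSupport_nonneg_nonzero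
    (μ := (volume : Measure (Cn n))) hGt.2.1 hGnn hne'
  rw [setIntegral_eq_integral_of_forall_compl_eq_zero] at hint
  · exact h3.ne' hint
  · intro y hy
    rw [image_eq_zero_of_notMem_tsupport fun h => hy (hκ.2.2 h), zero_mul]

end local_

section congr

variable {n : ℕ} {M : Type v} [TopologicalSpace M] [ChartedSpace (Fin n → ℂ) M]

theorem pm_congr {q : M → Matrix (Fin n) (Fin n) ℂ} {ψ ψ' : Cn n → M} {x : Cn n}
    (h : ψ =ᶠ[𝓝 x] ψ') : pm n q ψ x = pm n q ψ' x := by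
  ext i j
  simp only [pm, Matrix.of_apply, dvec, dmap]
  rw [h.mfderiv_eq, h.eq_of_nhds]

theorem lpot_congr {v : M → ℝ} {ψ ψ' : Cn n → M} {x : Cn n}
    (h : ψ =ᶠ[𝓝 x] ψ') : lpot n v ψ x = lpot n v ψ' x := by
  unfold lpot
  rw [jac_congr h, h.eq_of_nhds]

end congr

section man

variable {b k : ℕ} {G : Type u} {M : Type v} [Group G] [MulAction G M]
  [TopologicalSpace M] [T2Space M] [ChartedSpace (Fin (b + k) → ℂ) M]
  [IsManifold 𝓘(ℂ, Fin (b + k) → ℂ) ω M] {h q : M → Matrix (Fin (b + k)) (Fin (b + k)) ℂ}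
  {v : M → ℝ}

theorem adq_fol (hPMB : S_PMB.{u, v}) (hD : DataK b k G M h v) (hF : FlatFol b k G M q v)
    {U : Set (Cn b)} {Δ : Set (Cn k)} (hU : IsOpen U) (hΔ : IsOpen Δ) {ψ : Cn (b + k) → M}
    (hψ : FolPar v U Δ ψ) :
    AdQ (prodK U Δ) (pm (b + k) q ψ) (lpot (b + k) v ψ) := by
  obtain ⟨h1, h2, -, -⟩ := (hPMB hD q hF.herm hF.inv).1 _ ψ hψ.1
  exact ⟨isOpen_prodK hU hΔ, h1, h2, hD.met.smooth _ _ hψ.1,
    fun x hx => (hD.rank _ ψ hψ.1 x hx).1, hψ.2, hF.flat U Δ ψ hU hΔ hψ⟩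

theorem mor (hPARBK : S_PARBK.{u, v}) (hPMB : S_PMB.{u, v}) (hD : DataK b k G M h v)
    (hF : FlatFol b k G M q v) {V W U : Set (Cn (b + k))} {ψ ψ' : Cn (b + k) → M}
    (hψ : Par (b + k) ψ V) (hψ' : Par (b + k) ψ' W)
    (hA : AdQ V (pm (b + k) q ψ) (lpot (b + k) v ψ))
    (hA' : AdQ W (pm (b + k) q ψ') (lpot (b + k) v ψ'))
    (hU : IsOpen U) (hUV : U ⊆ V) {τ : Cn (b + k) → Cn (b + k)} (hτ : DifferentiableOn ℂ τ U)
    (hm : MapsTo τ U W) (hdet : ∀ x ∈ U, (fderiv ℂ τ x).det ≠ 0) (γ : G)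
    (hγ : ∀ x ∈ U, γ • ψ x = ψ' (τ x)) :
    MorQ U W (pm (b + k) q ψ) (pm (b + k) q ψ') (lpot (b + k) v ψ) (lpot (b + k) v ψ') τ where
  src := adq_mono hA hU hUV
  tgt := hA'
  holo := hτ
  maps := hm
  det := hdet
  met := by
    intro x hx u w
    obtain ⟨hp1, hp2⟩ := hPMB hD q hF.herm hF.inv
    have h1 := hp2 W U ψ' τ hψ' hU hτ hm hdet x hx u w
    have hev : (ψ' ∘ τ) =ᶠ[𝓝 x] (fun y => γ • ψ y) := by
      filter_upwards [hU.mem_nhds hx] with y hy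
      exact (hγ y hy).symm
    rw [← h1, pm_congr hev, (hp1 V ψ hψ).2.2.2 γ x (hUV hx)]
  pot := by
    intro x hx
    have h1 := ((hPARBK hD).1 W U ψ' τ hψ' hU hτ hm hdet).2 x hx
    have h2 := ((hPARBK hD).2.1 γ V ψ hψ).2 x (hUV hx)
    have hev : (ψ' ∘ τ) =ᶠ[𝓝 x] (fun y => γ • ψ y) := by
      filter_upwards [hU.mem_nhds hx] with y hy
      exact (hγ y hy).symm
    rw [← h2, ← h1.2]
    exact lpot_congr hev.symm

/-- A local transition map. -/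
theorem trans_at (hPARBK : S_PARBK.{u, v}) (hPMB : S_PMB.{u, v}) (hD : DataK b k G M h v)
    (hF : FlatFol b k G M q v) {V W : Set (Cn (b + k))} {ψ ψ' : Cn (b + k) → M}
    (hψ : Par (b + k) ψ V) (hψ' : Par (b + k) ψ' W)
    (hA : AdQ V (pm (b + k) q ψ) (lpot (b + k) v ψ))
    (hA' : AdQ W (pm (b + k) q ψ') (lpot (b + k) v ψ'))
    (γ : G) {x x' : Cn (b + k)} (hx : x ∈ V) (hx' : x' ∈ W) (hγ : γ • ψ x = ψ' x') :
    ∃ (τ : Cn (b + k) → Cn (b + k)) (U : Set (Cn (b + k))), x ∈ U ∧ τ x = x' ∧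
      MorQ U W (pm (b + k) q ψ) (pm (b + k) q ψ') (lpot (b + k) v ψ) (lpot (b + k) v ψ') τ := by
  obtain ⟨τ, U, W', hU, hW', hxU, hxW', hUV, hWW, hτ, -, hm, hτx, hdet, hiff⟩ :=
    (hPARBK hD).2.2.1 V W ψ ψ' hψ hψ' γ x hx x' hx' hγ
  exact ⟨τ, U, hxU, hτx, mor hPARBK hPMB hD hF hψ hψ' hA hA' hU hUV hτ
    (fun y hy => hWW (hm hy)) hdet γ fun y hy => (hiff y hy (τ y) (hm hy)).2 rfl⟩

/-- Arrows of the relation are local isomorphisms. -/
theorem arr_mor (hPARBK : S_PARBK.{u, v}) (hPMB : S_PMB.{u, v}) (hD : DataK b k G M h v)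
    (hF : FlatFol b k G M q v) {T : Set (Cn (b + k))} {E : Cn (b + k) → M}
    (hE : Par (b + k) E T) (hA : AdQ T (pm (b + k) q E) (lpot (b + k) v E))
    {U : Set (Cn (b + k))} {τ : Cn (b + k) → Cn (b + k)} (hτ : Arr (RelT (G := G) T E) U τ) :
    MorQ U T (pm (b + k) q E) (pm (b + k) q E) (lpot (b + k) v E) (lpot (b + k) v E) τ := by
  obtain ⟨hU, hd, γ, hγ⟩ := hτ
  refine mor hPARBK hPMB hD hF hE hE hA hA hU (fun x hx => (hγ x hx).1) hd
    (fun x hx => (hγ x hx).2.1) (fun x hx => ?_) γ fun x hx => (hγ x hx).2.2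
  obtain ⟨τ', U', W', hU', hW', hxU', hxW', -, -, -, -, -, hτx, hdet, hiff⟩ :=
    (hPARBK hD).2.2.1 T T E E hE hE γ x (hγ x hx).1 (τ x) (hγ x hx).2.1 (hγ x hx).2.2
  have hc : ContinuousAt τ x := (hd.differentiableAt (hU.mem_nhds hx)).continuousAt
  have hev : τ =ᶠ[𝓝 x] τ' := by
    filter_upwards [hU.mem_nhds hx, hU'.mem_nhds hxU', hc.preimage_mem_nhds (hW'.mem_nhds hxW')]
      with y hy hy' hyW
    exact (hiff y hy' (τ y) hyW).1 (hγ y hy).2.2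
  rw [hev.fderiv_eq]
  exact hdet x hxU'

end man

/-- BZERO. -/
theorem bzero (hPARBK : S_PARBK.{u, v}) (hPMB : S_PMB.{u, v}) (hKETG : S_KETG.{u, v})
    (hFINF : S_FINF.{u, v}) (hPUE : S_PUE.{u}) (hDIVC : S_DIVC.{u}) (hDIVB : S_DIVB)
    (hPOSB : S_POSB) (hNATC : S_NATC) (hNATE : S_NATE) : S_BZERO.{u, v} := by
  intro b k G M _ _ _ _ _ _ _ h q v hb hD hF U Δ ψ hU hΔ hψ x hx a i j l
  obtain ⟨N, c, E, hN, -, hE, hcov⟩ := hFINF hb hD hF
  set T : Set (Cn (b + k)) := prodK (Bd c 6) (ball (0 : Cn k) 6) with hTdef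
  have hBo : IsOpen (Bd c 6) := isOpen_iUnion fun i => isOpen_ball
  have hT : IsOpen T := isOpen_prodK hBo isOpen_ball
  set Q := pm (b + k) q E with hQ
  set Φ := lpot (b + k) v E with hΦ
  have hA : AdQ T Q Φ := adq_fol hPMB hD hF hBo isOpen_ball hE
  have h16 : ∀ y ∈ prodK (Bd c 1) (ball (0 : Cn k) 1), ∃ m, y ∈ ball (ptK (c m) (0 : Cn k)) 1 := by
    intro y hy
    obtain ⟨m, hm⟩ := mem_iUnion.1 hy.1
    refine ⟨m, ?_⟩
    rw [ball_prodK, base_ptK, fib_ptK]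
    exact ⟨hm, hy.2⟩
  have hsub : (⋃ m, closedBall (ptK (c m) (0 : Cn k)) 1) ⊆ T := by
    intro y hy
    obtain ⟨m, hm⟩ := mem_iUnion.1 hy
    have h1 : y ∈ ball (ptK (c m) (0 : Cn k)) 6 :=
      closedBall_subset_ball (by norm_num) hm
    rw [ball_prodK, base_ptK, fib_ptK] at h1
    exact ⟨mem_iUnion.2 ⟨m, h1.1⟩, h1.2⟩
  have hK : KEt T (RelT (G := G) T E) (pm (b + k) h E) := by
    refine hKETG hD T E hE.1 ⟨⋃ m, closedBall (ptK (c m) (0 : Cn k)) 1, hsub,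
      isCompact_iUnion fun m => isCompact_closedBall _ _, fun p => ?_⟩
    obtain ⟨γ, y, hy, hγ⟩ := hcov p
    obtain ⟨m, hm⟩ := h16 y hy
    exact ⟨γ, y, mem_iUnion.2 ⟨m, ball_subset_closedBall hm⟩, hγ⟩
  obtain ⟨κ, hκ⟩ := hPUE T (RelT (G := G) T E) hK.et
  have harr : ∀ U τ, Arr (RelT (G := G) T E) U τ → MorQ U T Q Q Φ Φ τ := fun U τ hτ =>
    arr_mor hPARBK hPMB hD hF hE.1 hA hτ
  obtain ⟨hY1, hY2, hdiv⟩ := hDIVB T Q Φ hA
  have hD1 := hDIVC T _ _ hK κ hκ (Y1q Q Φ) hY1 fun U τ hτ x hx =>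
    (hNATE U T Q Q Φ Φ τ (harr U τ hτ) x hx).1
  have hD2 := hDIVC T _ _ hK κ hκ (Y2q Q Φ) hY2 fun U τ hτ x hx =>
    (hNATE U T Q Q Φ Φ τ (harr U τ hτ) x hx).2.1
  set D1 : Cn (b + k) → ℂ := fun x => ∑ l, cd l (fun y => Y1q Q Φ y l) x with hD1def
  set D2 : Cn (b + k) → ℂ := fun x => ∑ l, cd l (fun y => Y2q Q Φ y l) x with hD2def
  have hs1 : ContDiffOn ℝ ∞ D1 T := ContDiffOn.sum fun l _ =>
    cd_smooth hT ((contDiff_apply ℝ ℂ l).comp_contDiffOn hY1) l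
  have hs2 : ContDiffOn ℝ ∞ D2 T := ContDiffOn.sum fun l _ =>
    cd_smooth hT ((contDiff_apply ℝ ℂ l).comp_contDiffOn hY2) l
  obtain ⟨hi1, hr1⟩ := re_integral hT hκ.test hs1 hD1
  obtain ⟨hi2, hr2⟩ := re_integral hT hκ.test hs2 hD2
  have hre : ∀ x ∈ T, (D1 x).re + (D2 x).re = (muq Q Φ x).re * (NBq Q Φ x).re := by
    intro x hx
    have h1 := congrArg Complex.re (hdiv x hx)
    obtain ⟨him, -, -, -, -⟩ := hPOSB T Q Φ hA x hx
    rw [add_re, conj_re, mul_re, him, zero_mul, sub_zero] at h1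
    exact h1
  have hint : ∫ x in T, κ x * ((D1 x).re + (D2 x).re) = 0 := by
    have h1 := integral_add hi1 hi2
    rw [hr1, hr2, add_zero] at h1
    rw [← h1]
    refine integral_congr_ae (Filter.Eventually.of_forall fun x => ?_)
    simp only [mul_add]
  have hg : ContDiffOn ℝ ∞ (fun x => (D1 x).re + (D2 x).re) T :=
    (Complex.reCLM.contDiff.comp_contDiffOn hs1).add
      (Complex.reCLM.contDiff.comp_contDiffOn hs2)
  have hv := vanish hT hκ.test hκ.nonneg hg (fun x hx => by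
    obtain ⟨-, h2, -, h4, -⟩ := hPOSB T Q Φ hA x hx
    rw [hre x hx]
    exact mul_nonneg h2.le h4) hint
  have hN0 : ∀ x ∈ T, κ x ≠ 0 → NBq Q Φ x = 0 := by
    intro x hx hκx
    have h1 := hv x hx hκx
    rw [hre x hx] at h1
    obtain ⟨-, h2, h3, -, -⟩ := hPOSB T Q Φ hA x hx
    exact Complex.ext ((mul_eq_zero.1 h1).resolve_left h2.ne') h3
  have hNT : ∀ x ∈ T, NBq Q Φ x = 0 := by
    intro x hx
    obtain ⟨γ, y, hγ, hκy⟩ := exists_arrow hκ hx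
    obtain ⟨τ, U', hxU', hτx, hm⟩ := trans_at hPARBK hPMB hD hF hE.1 hE.1 hA hA γ hγ.1 hγ.2.1
      hγ.2.2
    rw [(hNATE _ _ _ _ _ _ τ hm x hxU').2.2, hτx]
    exact hN0 y hγ.2.1 hκy
  have hBT : ∀ x ∈ T, ∀ a i, BBq Q a i x = 0 := fun x hx =>
    (hPOSB T Q Φ hA x hx).2.2.2.2 (hNT x hx)
  obtain ⟨γ, x', hx', hγ⟩ := hcov (ψ x)
  have hx'T : x' ∈ T := by
    obtain ⟨m, hm⟩ := h16 x' hx'
    exact hsub (mem_iUnion.2 ⟨m, ball_subset_closedBall hm⟩)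
  obtain ⟨τ, U', hxU', hτx, hm⟩ := trans_at hPARBK hPMB hD hF hψ.1 hE.1
    (adq_fol hPMB hD hF hU hΔ hψ) hA γ hx hx'T hγ
  have hB : BBq (pm (b + k) q ψ) a i x = 0 := by
    rw [hNATC _ _ _ _ _ _ τ hm x hxU' a i, hτx]
    refine Finset.sum_eq_zero fun c _ => Finset.sum_eq_zero fun p _ => ?_
    rw [hBT x' hx'T c p]
    simp
  have hfin := congrFun (congrFun hB j) l
  exact hfin

end Pool.Agent.Helper11.RK
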