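import Pool.Agent.Helper40.RK.GoalsE
import Pool.Agent.Helper68.Lin.CAU
import Pool.Agent.Helper35.RK.TriB

/-! # RK-ADDQK: near additivity of the functions `q` -/

open Complex Metric Set Filter Topology Matrix

namespace Pool.Agent.Helper11.RK

open Pool.Agent.Helper95.Lin Pool.Agent.Helper10.SP Pool.Agent.Helper95.RK Pool.Agent.Helper36.RK
open Pool.Agent.Helper40.RK

theorem MB_neg_sub {k : ℕ} {A : Matrix (Fin k) (Fin k) ℂ} {η : ℝ} (h : MB (A - 1) η) :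
    MB (1 - A) η := by
  intro v
  have h1 : (1 - A) *ᵥ v = -((A - 1) *ᵥ v) := by
    rw [← Matrix.neg_mulVec, neg_sub]
  rw [h1, norm_neg]
  exact h v

theorem addqk (hNML : S_NMLK) (hCMPQ : S_CMPQK) : S_ADDQK := by
  intro b k N c R P Φ Hf C hA i ε hε
  have hC : 1 ≤ C := hA.Cge
  have hCpos : 0 < C := by linarith
  obtain ⟨ε₀, hε₀, K, hK⟩ := hCMPQ c R P Φ Hf C hA i
  obtain ⟨K', hK'sub, -, -, L, hL, hcau⟩ := Pool.Agent.Helper68.Lin.CAU (n := b) (m := k)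
    (ball (c i) 4) isOpen_ball (closedBall (c i) (7 / 2))
    (closedBall_subset_ball (by norm_num)) (isCompact_closedBall _ _)
  obtain ⟨η₁, hη₁, h₁⟩ := hNML c R P Φ Hf C hA i 3 (by norm_num) ε hε
  -- `M = max K 0`
  set M : ℝ := max K 0 with hM
  have hM0 : 0 ≤ M := le_max_right _ _
  set η : ℝ := min (min (min ε₀ η₁) (1 / 4)) (ε / (M * (L + C) + 1)) with hη
  have hden : 0 < M * (L + C) + 1 := by positivity
  have hηpos : 0 < η := lt_min (lt_min (lt_min hε₀ hη₁) (by norm_num)) (by positivity)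
  have hη_ε₀ : η ≤ ε₀ := (min_le_left _ _).trans ((min_le_left _ _).trans (min_le_left _ _))
  have hη_η₁ : η ≤ η₁ := (min_le_left _ _).trans ((min_le_left _ _).trans (min_le_right _ _))
  have hη_4 : η ≤ 1 / 4 := (min_le_left _ _).trans (min_le_right _ _)
  have hη_ε : η * (M * (L + C)) ≤ ε := by
    have h1 : η ≤ ε / (M * (L + C) + 1) := min_le_right _ _
    rw [le_div_iff₀ hden] at h1
    nlinarith
  refine ⟨η, hηpos, ?_⟩
  intro t t' ht ht'
  have hmono : ∀ {ε' : ℝ} {t : TriK b k}, NrK c P i 3 η t → η ≤ ε' → NrK c P i 3 ε' t := by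
    intro ε' t h hε
    exact ⟨h.1, fun z hz => ⟨(h.2 z hz).1.trans hε, (h.2 z hz).2.mono hε⟩⟩
  obtain ⟨hmapt, u, hu, hueq⟩ := (h₁ t' (hmono ht' hη_η₁)).1 t (hmono ht hη_η₁)
  refine ⟨u, hu, fun x hx => ?_⟩
  have hx4 : x ∈ ball (c i) 4 := ball_subset_ball (by norm_num) hx
  have hdet : ∀ s, BigK c P i s → ∀ z ∈ ball (c i) 4, (s.A z).det ≠ 0 := fun s hs z hz =>
    ((hA.holo _ s hs.1).2.2.2 z hz).2
  -- bound of `t'.q`
  set Q : ℝ := M * (1 + ‖t'.q (c i)‖) with hQ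
  have hQ0 : 0 ≤ Q := by positivity
  have hqb : ∀ z ∈ ball (c i) 4, ‖t'.q z‖ ≤ Q := by
    intro z hz
    have h1 := (hK t' t' (hmono ht' hη_ε₀) (hmono ht' hη_ε₀) z hz).2 (c i)
      (mem_ball_self (by norm_num))
    refine h1.trans ?_
    exact mul_le_mul_of_nonneg_right (le_max_left _ _) (by positivity)
  obtain ⟨-, -, ⟨-, hhA, hhβ⟩, -⟩ := hA.holo _ t' ht'.1.1
  have hqd : DifferentiableOn ℂ (fun z => t'.q z) (ball (c i) 4) :=
    Pool.Agent.Helper35.RK.mulVec_diff (fun p q => Pool.Agent.Helper35.RK.inv_diff hhA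
      (hdet t' ht'.1) p q) hhβ
  have hbd : ∀ z ∈ K', ‖t'.q z‖ ≤ Q := fun z hz => hqb z (hK'sub hz)
  have hlip := (hcau _ hqd Q hbd).2
  have hx35 : x ∈ closedBall (c i) (7 / 2) := by
    rw [mem_ball] at hx
    rw [mem_closedBall]
    linarith
  have hgx : ‖t.g x - x‖ ≤ η := (ht.2 x hx).1
  have hgx35 : t.g x ∈ closedBall (c i) (7 / 2) := by
    rw [mem_ball, dist_eq_norm] at hx
    rw [mem_closedBall, dist_eq_norm]
    have h3 : t.g x - c i = (t.g x - x) + (x - c i) := by abel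
    rw [h3]
    have := norm_add_le (t.g x - x) (x - c i)
    linarith
  have hgx4 : t.g x ∈ ball (c i) 4 := closedBall_subset_ball (by norm_num) hgx35
  have hl : ‖t'.q (t.g x) - t'.q x‖ ≤ L * Q * η := by
    have h1 := hlip (t.g x) hgx35 x hx35
    refine h1.trans ?_
    gcongr
  obtain ⟨-, e2, e3⟩ := hueq x hx
  simp only [TriK.comp] at e2 e3
  have hta := hdet t ht.1 x hx4
  have hta' := hdet t' ht'.1 _ hgx4
  have hid : u.q x - t.q x - t'.q x =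
      (t'.q (t.g x) - t'.q x) + ((t.A x)⁻¹ - 1) *ᵥ t'.q (t.g x) := by
    have h1 : u.q x = t.q x + (t.A x)⁻¹ *ᵥ t'.q (t.g x) := by
      simp only [TriK.q, e2, e3, Matrix.mul_inv_rev, Matrix.mulVec_add, ← Matrix.mulVec_mulVec]
      congr 1
      congr 1
      rw [Matrix.mulVec_mulVec, Matrix.nonsing_inv_mul _ (Ne.isUnit hta'), Matrix.one_mulVec]
    rw [h1, Matrix.sub_mulVec, Matrix.one_mulVec]
    abel
  have hda : ‖((t.A x)⁻¹ - 1) *ᵥ t'.q (t.g x)‖ ≤ C * η * Q := by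
    have h1 : (t.A x)⁻¹ - 1 = (t.A x)⁻¹ * (1 - t.A x) := by
      rw [Matrix.mul_sub, Matrix.mul_one, Matrix.nonsing_inv_mul _ (Ne.isUnit hta)]
    rw [h1]
    have h2 := (MB.mul hCpos.le (hA.abd i t ht.1 x hx4).2 (MB_neg_sub (ht.2 x hx).2))
      (t'.q (t.g x))
    exact h2.trans (mul_le_mul_of_nonneg_left (hqb _ hgx4) (by positivity))
  rw [hid]
  calc ‖(t'.q (t.g x) - t'.q x) + ((t.A x)⁻¹ - 1) *ᵥ t'.q (t.g x)‖
      ≤ ‖t'.q (t.g x) - t'.q x‖ + ‖((t.A x)⁻¹ - 1) *ᵥ t'.q (t.g x)‖ := norm_add_le _ _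
    _ ≤ L * Q * η + C * η * Q := add_le_add hl hda
    _ = η * (M * (L + C)) * (1 + ‖t'.q (c i)‖) := by rw [hQ]; ring
    _ ≤ ε * (1 + ‖t'.q (c i)‖) := mul_le_mul_of_nonneg_right hη_ε (by positivity)

end Pool.Agent.Helper11.RK
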